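import Pool.Agent.Helper999.CWSwap

set_option autoImplicit false

namespace Pool.Agent.Results.MP_b06295_co.CoprimeWreath

open SimpleGraph

/-- `Y` is a minor (subcontraction) of `X`: the vertices of `Y` are represented by pairwise
disjoint (nonempty) connected vertex sets of `X`, and the two sets of adjacent vertices of `Y`
are joined by an edge of `X`. -/
def IsMinor {W V : Type} (Y : SimpleGraph W) (X : SimpleGraph V) : Prop :=
  ∃ B : W → Set V, (∀ w, (X.induce (B w)).Connected) ∧
    (∀ w w', w ≠ w' → Disjoint (B w) (B w')) ∧
    ∀ w w', Y.Adj w w' → ∃ a ∈ B w, ∃ b ∈ B w', X.Adj a b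

/-- a subcontraction-closed class of finite graphs -/
def SubcontractionClosed (C : ∀ (V : Type) [Finite V], SimpleGraph V → Prop) : Prop :=
  ∀ (V W : Type) [Finite V] [Finite W] (X : SimpleGraph V) (Y : SimpleGraph W),
    C V X → IsMinor Y X → C W Y

/-- the smallest class of (finite) groups that contains the finite cyclic groups and is closed
under isomorphism, direct products and permutational wreath products
`A ≀_Ω B = (Ω → A) ⋊ B` with `B` acting on a finite set `Ω` -/
inductive InW : (G : Type) → [Group G] → Prop
  | cyclic (G : Type) [Group G] [Finite G] [IsCyclic G] : InW G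
  | prod (A B : Type) [Group A] [Group B] : InW A → InW B → InW (A × B)
  | wreath (A B Ω : Type) [Group A] [Group B] [Finite Ω] [MulAction B Ω] :
      InW A → InW B → InW ((Ω → A) ⋊[mulAutArrow] B)
  | iso (G H : Type) [Group G] [Group H] : (G ≃* H) → InW G → InW H

/-- sanity check: isomorphic graphs are minors of each other, so subcontraction-closed classes
are closed under isomorphism -/
theorem isMinor_of_iso {W V : Type} {Y : SimpleGraph W} {X : SimpleGraph V} (e : Y ≃g X) :
    IsMinor Y X := by
  refine ⟨fun w => {e w}, fun w => Pool.Agent.Helper999.HM.conn_singleton X (e w), ?_, ?_⟩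
  · intro w w' h
    rw [Set.disjoint_singleton]
    exact fun h' => h (e.injective h')
  · intro w w' h
    exact ⟨e w, rfl, e w', rfl, e.map_rel_iff.2 h⟩

/-- sanity check: all groups of the class are finite -/
theorem InW.finite {G : Type} [Group G] (h : InW G) : Finite G := by
  induction h with
  | cyclic G => assumption
  | prod A B _ _ ihA ihB => exact Finite.instProd
  | wreath A B Ω _ _ ihA ihB =>
    have : Finite ((Ω → A) × B) := Finite.instProd
    exact Finite.of_injective (fun x : (Ω → A) ⋊[mulAutArrow] B => (x.left, x.right))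
      (fun x y h => SemidirectProduct.ext (congrArg Prod.fst h) (congrArg Prod.snd h))
  | iso G H e _ ih => exact Finite.of_equiv G e.toEquiv

theorem InW_pi (R : Type) [Finite R] : ∀ (A : R → Type) [∀ r, Group (A r)],
    (∀ r, InW (A r)) → InW (∀ r, A r) := by
  classical
  induction R using Finite.induction_empty_option with
  | of_equiv e ih =>
    intro A _ h
    refine InW.iso _ _ (MulEquiv.symm ?_) (ih (fun a => A (e a)) (fun a => h (e a)))
    refine MulEquiv.ofBijective (MonoidHom.mk' (fun (f : ∀ b, A b) a => f (e a)) ?_) ⟨?_, ?_⟩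
    · intro f g
      rfl
    · intro f g hfg
      funext b
      obtain ⟨a, rfl⟩ := e.surjective b
      exact congrFun hfg a
    · intro g
      refine ⟨(Equiv.piCongrLeft A e) g, ?_⟩
      funext a
      exact Equiv.piCongrLeft_apply_apply A e g a
  | h_empty =>
    intro A _ _
    have : Subsingleton (∀ r : PEmpty, A r) := ⟨fun a b => funext fun r => r.elim⟩
    exact InW.cyclic _
  | h_option ih =>
    intro A _ h
    refine InW.iso _ _ (MulEquiv.symm ?_) (InW.prod _ _ (h none) (ih (fun a => A (some a))
      (fun a => h (some a))))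
    refine MulEquiv.ofBijective (MonoidHom.mk' (fun (f : ∀ b, A b) =>
      (f none, fun a => f (some a))) ?_) ⟨?_, ?_⟩
    · intro f g
      rfl
    · intro f g hfg
      funext b
      cases b with
      | none => exact congrArg Prod.fst hfg
      | some a => exact congrFun (congrArg Prod.snd hfg) a
    · rintro ⟨x, g⟩
      exact ⟨fun b => match b with
        | none => x
        | some a => g a, rfl⟩

theorem InW_comm (G : Type) [CommGroup G] [Finite G] : InW G := by
  obtain ⟨ι, _, n, hn, ⟨e⟩⟩ := CommGroup.equiv_prod_multiplicative_zmod_of_finite G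
  refine InW.iso _ _ e.symm (InW_pi ι _ (fun i => ?_))
  have : NeZero (n i) := ⟨by have := hn i; omega⟩
  exact InW.cyclic _

open Pool.Agent.Helper999.CW Pool.Agent.Helper999.HM

theorem main_induction {k N : ℕ} (hN : 2 ^ k ≤ N) (hN2 : 2 * k ≤ N) (hN3 : 3 ≤ N) (n : ℕ) :
    ∀ (V α : Type) [Finite V] (X : SimpleGraph V) (χ : V → α), Nat.card V ≤ n →
      ¬ HasKMinor X k → Big N (CAut X χ) → InW (CAut X χ) := by
  classical
  induction n with
  | zero =>
    intro V α _ X χ hn _ _
    have h1 : IsEmpty V := by
      rcases isEmpty_or_nonempty V with h | h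
      · exact h
      · have := Nat.card_pos (α := V)
        omega
    have : Subsingleton (CAut X χ) :=
      ⟨fun a b => Subtype.ext (Equiv.ext fun v => (h1.false v).elim)⟩
    exact InW.cyclic _
  | succ n ih =>
    intro V α _ X χ hn hno hB
    obtain ⟨M, hdec, hcomm, hlt⟩ := exists_dec hN hN2 hN3 hB hno
    have hnorm : M.Normal := hdec.normal
    have hAr : ∀ r : Rp hdec, InW (Ar hdec r) := by
      intro r
      refine ih _ _ _ _ ?_ (fun h => hno h.of_induce) ?_
      · have h1 : Nat.card (Cr hdec r) < Nat.card V := by
          have : Nat.card (Cr hdec r) = (Cr hdec r).ncard := rfl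
          rw [this]
          have h2 : (Cr hdec r).ncard < (Set.univ : Set V).ncard := by
            refine Set.ncard_lt_ncard ⟨Set.subset_univ _, ?_⟩ (Set.toFinite _)
            intro h
            obtain ⟨w, hw⟩ := hlt _ (vr_not hdec r)
            exact hw (h (Set.mem_univ w))
          rwa [Set.ncard_univ] at h2
        omega
      · let f1 : Ar hdec r →* Base hdec := MonoidHom.mulSingle (fun r => Ar hdec r) r
        let f2 : Base hdec →* ((CAut X χ ⧸ M) → Base hdec) :=
          MonoidHom.mulSingle (fun _ : CAut X χ ⧸ M => Base hdec) 1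
        let f3 : ((CAut X χ ⧸ M) → Base hdec) →*
          ((CAut X χ ⧸ M) → Base hdec) ⋊[mulAutArrow] (CAut X χ ⧸ M) := SemidirectProduct.inl
        let f : Ar hdec r →* CAut X χ :=
          (decomp hdec).symm.toMonoidHom.comp (f3.comp (f2.comp f1))
        have hf1 : Function.Injective f1 := by
          intro a b h
          have h1 := congrFun h r
          simp only [f1, MonoidHom.mulSingle_apply, Pi.mulSingle_eq_same] at h1
          exact h1
        have hf2 : Function.Injective f2 := by
          intro a b h
          have h1 := congrFun h 1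
          simp only [f2, MonoidHom.mulSingle_apply, Pi.mulSingle_eq_same] at h1
          exact h1
        have hf : Function.Injective f := by
          refine (decomp hdec).symm.injective.comp ?_
          exact Function.Injective.comp (g := f3) SemidirectProduct.inl_injective (hf2.comp hf1)
        intro d hd
        exact hB d (hd.trans (Subgroup.card_dvd_of_injective f hf))
    have hBase : InW (Base hdec) := InW_pi (Rp hdec) _ hAr
    have hQ : InW (CAut X χ ⧸ M) := by
      let inst : CommGroup (CAut X χ ⧸ M) :=
        { (inferInstance : Group (CAut X χ ⧸ M)) with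
          mul_comm := by
            intro a b
            obtain ⟨a, rfl⟩ := QuotientGroup.mk_surjective a
            obtain ⟨b, rfl⟩ := QuotientGroup.mk_surjective b
            change ((a * b : CAut X χ) : CAut X χ ⧸ M) = ((b * a : CAut X χ) : CAut X χ ⧸ M)
            symm
            refine QuotientGroup.eq.2 ?_
            rw [show (b * a)⁻¹ * (a * b) = a⁻¹ * b⁻¹ * a * b by group]
            exact hcomm a b }
      exact InW_comm (CAut X χ ⧸ M)
    exact InW.iso _ _ (decomp hdec).symm (InW.wreath _ _ _ hBase hQ)

/-- automorphisms of a graph as colour preserving automorphisms for the constant colouring -/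
def autEquiv {V : Type} (X : SimpleGraph V) : (X ≃g X) ≃* CAut X (fun _ : V => ()) where
  toFun φ := ⟨φ.toEquiv, fun _ _ => φ.map_rel_iff, fun _ => rfl⟩
  invFun σ := ⟨σ.1, fun {a b} => σ.2.1 a b⟩
  left_inv _ := rfl
  right_inv _ := rfl
  map_mul' _ _ := rfl

/-- **Theorem.** For every subcontraction-closed class `C` of finite graphs that does not contain
all finite graphs there is `N` such that every group `G` isomorphic to `Aut X`, `X ∈ C`, whose
order is divisible by no prime less than `N`, belongs to the class `W`. -/
theorem result (C : ∀ (V : Type) [Finite V], SimpleGraph V → Prop)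
    (hC : SubcontractionClosed C)
    (hproper : ∃ (W : Type) (_ : Finite W) (Y : SimpleGraph W), ¬ C W Y) :
    ∃ N : ℕ, ∀ (V : Type) [Finite V] (X : SimpleGraph V), C V X →
      ∀ (G : Type) [Group G], Nonempty (G ≃* (X ≃g X)) →
        (∀ p : ℕ, p.Prime → p < N → ¬ p ∣ Nat.card G) → InW G := by
  classical
  obtain ⟨W, _, Y, hY⟩ := hproper
  set k := Nat.card W with hk
  have hk2 : k < 2 ^ k := Nat.lt_two_pow_self
  refine ⟨2 ^ (k + 2), ?_⟩
  intro V _ X hX G _ ⟨e⟩ hG
  have hpow : 2 ^ (k + 2) = 4 * 2 ^ k := by ring
  have hno : ¬ HasKMinor X k := by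
    rintro ⟨B, h1, h2, h3⟩
    apply hY
    refine hC V W X Y hX ?_
    have e' : W ≃ Fin k := (Finite.equivFin W)
    refine ⟨fun w => B (e' w), fun w => h1 _, fun w w' h => h2 _ _ (fun h' => h (e'.injective h')),
      fun w w' h => h3 _ _ (fun h' => h.ne (e'.injective h'))⟩
  let e2 : G ≃* CAut X (fun _ : V => ()) := e.trans (autEquiv X)
  have hcard : Nat.card G = Nat.card (CAut X (fun _ : V => ())) := Nat.card_congr e2.toEquiv
  have hB : Big (2 ^ (k + 2)) (CAut X (fun _ : V => ())) := by
    intro d hd
    rw [← hcard] at hd
    by_cases hd1 : d = 1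
    · exact Or.inl hd1
    · right
      obtain ⟨p, hp, hpd⟩ := Nat.exists_prime_and_dvd hd1
      by_contra hlt
      push Not at hlt
      have hpos : 0 < d := by
        refine Nat.pos_of_ne_zero ?_
        rintro rfl
        rw [zero_dvd_iff, hcard] at hd
        exact absurd hd Nat.card_pos.ne'
      exact hG p hp (lt_of_le_of_lt (Nat.le_of_dvd hpos hpd) hlt) (hpd.trans hd)
  have h1 : InW (CAut X (fun _ : V => ())) :=
    main_induction (k := k) (N := 2 ^ (k + 2)) (by omega) (by omega) (by omega) _ V Unit X _
      le_rfl hno hB
  exact InW.iso _ _ e2.symm h1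

end Pool.Agent.Results.MP_b06295_co.CoprimeWreath
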